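import Pool.Agent.Y727.CS.Stm

set_option autoImplicit false

/-!
# Project CS: the partial derivatives of the traces of words in the resolvent
-/

namespace Pool.Agent.Y686.CS

open Matrix Pool.Agent.Y727.CS

section

variable {ι : Type} [Fintype ι] [DecidableEq ι]

lemma word_cons {e : ℕ} (S a : Matrix ι ι ℂ) (w : Fin e → Matrix ι ι ℂ) :
    word S (Fin.cons a w : Fin (e + 1) → Matrix ι ι ℂ) = S * a * word S w := by
  unfold word
  rw [List.ofFn_succ, List.prod_cons]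
  simp

lemma insertNth_succ_cons {α : Type} {e : ℕ} (q : Fin (e + 1)) (G a : α) (w : Fin e → α) :
    (Fin.insertNth q.succ G (Fin.cons a w : Fin (e + 1) → α) : Fin (e + 2) → α) =
      Fin.cons a (Fin.insertNth q G w : Fin (e + 1) → α) := by
  rw [Fin.insertNth_eq_iff]
  refine ⟨by simp, ?_⟩
  ext k
  refine Fin.cases ?_ (fun k => ?_) k
  · simp [Fin.removeNth]
  · simp [Fin.removeNth, Fin.succ_succAbove_succ]

attribute [local instance] Matrix.linftyOpNormedRing Matrix.linftyOpNormedAlgebra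

lemma inv_deriv (A G : Matrix ι ι ℂ) (hA : A.det ≠ 0) :
    HasDerivAt (fun t : ℝ => (A - (t : ℂ) • G)⁻¹) (A⁻¹ * G * A⁻¹) 0 := by
  have hu : IsUnit A := (Matrix.isUnit_iff_isUnit_det A).2 (isUnit_iff_ne_zero.2 hA)
  obtain ⟨U, hU⟩ := hu
  have h1 : HasDerivAt (fun t : ℝ => A - (t : ℂ) • G) (-G) 0 := by
    have h2 : HasDerivAt (fun t : ℝ => (t : ℂ)) 1 0 := Complex.ofRealCLM.hasDerivAt
    have h3 := (h2.smul_const G).const_sub A
    have h4 : HasDerivAt (fun t : ℝ => A - (t : ℂ) • G) (-((1 : ℂ) • G)) 0 := h3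
    rwa [one_smul] at h4
  have h4 : HasFDerivAt (𝕜 := ℝ) Ring.inverse
      (-ContinuousLinearMap.mulLeftRight ℝ (Matrix ι ι ℂ) ↑U⁻¹ ↑U⁻¹) (A - ((0 : ℝ) : ℂ) • G) := by
    have := hasFDerivAt_ringInverse (𝕜 := ℝ) U
    rw [hU] at this
    simpa using this
  have h5 := h4.comp_hasDerivAt (0 : ℝ) h1
  have h6 : ((↑U⁻¹ : Matrix ι ι ℂ)) = A⁻¹ := by
    rw [Matrix.coe_units_inv, hU]
  have h7 : (fun t : ℝ => (A - (t : ℂ) • G)⁻¹) =
      Ring.inverse ∘ fun t : ℝ => A - (t : ℂ) • G := by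
    ext1 t
    rw [Function.comp, Matrix.nonsing_inv_eq_ringInverse]
  rw [h7]
  have h8 : (-ContinuousLinearMap.mulLeftRight ℝ (Matrix ι ι ℂ) ↑U⁻¹ ↑U⁻¹) (-G) =
      A⁻¹ * G * A⁻¹ := by
    rw [h6]
    simp
  rw [← h8]
  exact h5

lemma word_deriv (S : ℝ → Matrix ι ι ℂ) (G : Matrix ι ι ℂ)
    (h : HasDerivAt S (S 0 * G * S 0) 0) {e : ℕ} (w : Fin e → Matrix ι ι ℂ) :
    HasDerivAt (fun t => word (S t) w)
      (∑ p : Fin e, word (S 0) (Fin.insertNth p.castSucc G w : Fin (e + 1) → Matrix ι ι ℂ)) 0 := by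
  induction e with
  | zero =>
    simp only [Finset.univ_eq_empty, Finset.sum_empty]
    have : (fun t => word (S t) w) = fun _ => 1 := by
      ext1 t
      simp [word]
    rw [this]
    exact hasDerivAt_const _ _
  | succ e ih =>
    obtain ⟨a, v, rfl⟩ : ∃ (a : Matrix ι ι ℂ) (v : Fin e → Matrix ι ι ℂ), w = Fin.cons a v :=
      ⟨w 0, Fin.tail w, (Fin.cons_self_tail w).symm⟩
    have h1 := (h.mul_const a).mul (ih v)
    have h2 : (fun t => word (S t) (Fin.cons a v : Fin (e + 1) → Matrix ι ι ℂ)) =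
        fun t => S t * a * word (S t) v := by
      ext1 t
      exact word_cons _ _ _
    rw [h2]
    have h3 : (∑ p : Fin (e + 1), word (S 0)
        (Fin.insertNth p.castSucc G (Fin.cons a v : Fin (e + 1) → Matrix ι ι ℂ) :
          Fin (e + 1 + 1) → Matrix ι ι ℂ)) =
        S 0 * G * S 0 * a * word (S 0) v + S 0 * a * ∑ p : Fin e, word (S 0)
          (Fin.insertNth p.castSucc G v : Fin (e + 1) → Matrix ι ι ℂ) := by
      rw [Fin.sum_univ_succ]
      congr 1
      · rw [Fin.castSucc_zero, Fin.insertNth_zero', word_cons, word_cons]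
        noncomm_ring
      · rw [Finset.mul_sum]
        refine Finset.sum_congr rfl fun q _ => ?_
        rw [← Fin.succ_castSucc, insertNth_succ_cons, word_cons]
    rw [h3]
    exact h1

lemma X_add {d : ℕ} (g : Fin d → Matrix ι ι ℂ) (x : Fin d → ℝ) (i : Fin d) (t : ℝ) :
    X g (x + t • Pi.single i 1) = X g x + (t : ℂ) • g i := by
  unfold X
  simp only [Pi.add_apply, Pi.smul_apply, smul_eq_mul, Complex.ofReal_add, add_smul,
    Finset.sum_add_distrib]
  congr 1
  rw [Finset.sum_eq_single i]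
  · simp
  · intro j _ hj
    simp [Pi.single_eq_of_ne hj]
  · simp

end

theorem t_der : S_der := by
  intro ι _ _ d e g w K Ga x i hdet
  let _ := Matrix.linftyOpNormedRing (n := ι) (α := ℂ)
  let _ := Matrix.linftyOpNormedAlgebra (n := ι) (R := ℝ) (α := ℂ)
  unfold HasLineDerivAt
  have h0 : (fun t : ℝ => (Ga * word (K - X g (x + t • Pi.single i 1))⁻¹ w).trace) =
      fun t : ℝ => (Ga * word (K - X g x - (t : ℂ) • g i)⁻¹ w).trace := by
    ext1 t
    rw [X_add, sub_add_eq_sub_sub]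
  rw [h0]
  have h1 := inv_deriv (K - X g x) (g i) hdet
  have h2 := word_deriv (fun t : ℝ => (K - X g x - (t : ℂ) • g i)⁻¹) (g i) (by simpa using h1) w
  have h3 := h2.const_mul Ga
  have h4 : HasDerivAt (fun t : ℝ => (Ga * word (K - X g x - (t : ℂ) • g i)⁻¹ w).trace)
      ((Ga * ∑ p : Fin e, word ((K - X g x - ((0 : ℝ) : ℂ) • g i)⁻¹)
        (Fin.insertNth p.castSucc (g i) w : Fin (e + 1) → Matrix ι ι ℂ)).trace) 0 := by
    have := (LinearMap.toContinuousLinearMap
      (Matrix.traceLinearMap ι ℝ ℂ)).hasFDerivAt.comp_hasDerivAt (0 : ℝ) h3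
    exact this
  have h5 : (∑ p : Fin e, (Ga * word (K - X g x)⁻¹
      (Fin.insertNth p.castSucc (g i) w : Fin (e + 1) → Matrix ι ι ℂ)).trace) =
      (Ga * ∑ p : Fin e, word ((K - X g x - ((0 : ℝ) : ℂ) • g i)⁻¹)
        (Fin.insertNth p.castSucc (g i) w : Fin (e + 1) → Matrix ι ι ℂ)).trace := by
    rw [Finset.mul_sum, Matrix.trace_sum]
    simp
  rw [h5]
  exact h4

end Pool.Agent.Y686.CS
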